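import Pool.Agent.K1H35.JA.Stm

/-! Project JA, piece LP: existence of good directions. -/

set_option autoImplicit false

namespace Pool.Agent.K1H82.JA

open Finset
open Pool.Agent.K1H35.JA

variable {k : ℕ}

theorem li_iff (P : Finset (Fin k → ℤ)) :
    LinearIndependent ℤ (fun p : P => (p : Fin k → ℤ)) ↔
      ∀ c : (Fin k → ℤ) → ℤ, ∑ p ∈ P, c p • p = 0 → ∀ p ∈ P, c p = 0 :=
  linearIndepOn_finset_iff (v := id) (s := P) (R := ℤ)

theorem li_card {P : Finset (Fin k → ℤ)}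
    (h : LinearIndependent ℤ (fun p : P => (p : Fin k → ℤ))) : P.card ≤ k := by
  have h1 := h.fintype_card_le_finrank
  rw [Module.finrank_fin_fun, Fintype.card_coe] at h1
  exact h1

/-- the vectors with small entries and small scalar product -/
def Bd (M : ℕ) (X : Fin k → ℤ) (c : ℕ) (a : Fin k → ℤ) : Prop :=
  (∀ l, |a l| ≤ (M : ℤ)) ∧ |a ⬝ᵥ X| ≤ (c : ℤ)

/-- there is a linearly independent set of `m` such vectors -/
def Qn (M : ℕ) (X : Fin k → ℤ) (c m : ℕ) : Prop :=
  ∃ P : Finset (Fin k → ℤ), (∀ p ∈ P, Bd M X c p) ∧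
    LinearIndependent ℤ (fun p : P => (p : Fin k → ℤ)) ∧ P.card = m

theorem Qn_mono {M : ℕ} {X : Fin k → ℤ} {c c' m : ℕ} (h : c ≤ c') (hQ : Qn M X c m) :
    Qn M X c' m := by
  obtain ⟨P, h1, h2, h3⟩ := hQ
  exact ⟨P, fun p hp => ⟨(h1 p hp).1, (h1 p hp).2.trans (by exact_mod_cast h)⟩, h2, h3⟩

theorem Qn_zero (M : ℕ) (X : Fin k → ℤ) (c : ℕ) : Qn M X c 0 := by
  refine ⟨∅, by simp, ?_, by simp⟩
  rw [li_iff]
  simp

theorem exists_level (M : ℕ) (X : Fin k → ℤ) (c : ℕ → ℕ) :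
    ∃ j ≤ k, ∃ P : Finset (Fin k → ℤ), (∀ p ∈ P, Bd M X (c j) p) ∧
      LinearIndependent ℤ (fun p : P => (p : Fin k → ℤ)) ∧
      ∀ m, Qn M X (c (j + 1)) m → m ≤ P.card := by
  classical
  set d : ℕ → ℕ := fun j => Nat.findGreatest (Qn M X (c j)) k with hd
  have hspec : ∀ j, Qn M X (c j) (d j) := fun j =>
    Nat.findGreatest_spec (Nat.zero_le k) (Qn_zero M X (c j))
  have hmax : ∀ j m, Qn M X (c j) m → m ≤ d j := by
    intro j m hm
    obtain ⟨P, h1, h2, h3⟩ := hm
    exact Nat.le_findGreatest (h3 ▸ li_card h2) ⟨P, h1, h2, h3⟩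
  have hle : ∀ j, d j ≤ k := fun j => Nat.findGreatest_le k
  have hex : ∃ j ≤ k, d (j + 1) ≤ d j := by
    by_contra hcon
    push Not at hcon
    have : ∀ j, j ≤ k + 1 → j ≤ d j := by
      intro j
      induction j with
      | zero => intro _; exact Nat.zero_le _
      | succ j ih =>
        intro hj
        have h1 := ih (by omega)
        have h2 := hcon j (by omega)
        omega
    have h1 := this (k + 1) le_rfl
    have h2 := hle (k + 1)
    omega
  obtain ⟨j, hj, hjd⟩ := hex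
  obtain ⟨P, h1, h2, h3⟩ := hspec j
  refine ⟨j, hj, P, h1, h2, fun m hm => ?_⟩
  rw [h3]
  exact (hmax _ _ hm).trans hjd

/-- the scalar product with a dependent vector -/
theorem dep {P : Finset (Fin k → ℤ)} {a v : Fin k → ℤ}
    (hP : LinearIndependent ℤ (fun p : P => (p : Fin k → ℤ))) (ha : a ∉ P)
    (hn : ¬ LinearIndependent ℤ (fun p : (insert a P : Finset (Fin k → ℤ)) => (p : Fin k → ℤ)))
    (hv : ∀ q ∈ P, q ⬝ᵥ v = 0) : a ⬝ᵥ v = 0 := by
  classical
  rw [li_iff] at hn hP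
  push Not at hn
  obtain ⟨c, hc, p, hp, hcp⟩ := hn
  rw [Finset.sum_insert ha] at hc
  have hca : c a ≠ 0 := by
    intro h0
    rw [h0, zero_smul, zero_add] at hc
    have h1 := hP c hc
    rcases Finset.mem_insert.mp hp with rfl | hp
    · exact hcp h0
    · exact hcp (h1 p hp)
  have h2 : (c a • a + ∑ x ∈ P, c x • x) ⬝ᵥ v = 0 := by rw [hc, zero_dotProduct]
  rw [add_dotProduct, sum_dotProduct, smul_dotProduct] at h2
  rw [Finset.sum_eq_zero (fun q hq => by rw [smul_dotProduct, hv q hq, smul_zero]), add_zero,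
    smul_eq_mul] at h2
  exact (mul_eq_zero.mp h2).resolve_left hca

theorem abs_dot {M N : ℕ} {a b : Fin k → ℤ} (ha : ∀ l, |a l| ≤ (M : ℤ))
    (hb : ∀ l, |b l| ≤ (N : ℤ)) : |a ⬝ᵥ b| ≤ (k * M * N : ℤ) := by
  unfold dotProduct
  refine (Finset.abs_sum_le_sum_abs _ _).trans ?_
  have : ∀ l ∈ (Finset.univ : Finset (Fin k)), |a l * b l| ≤ (M * N : ℤ) := by
    intro l _
    rw [abs_mul]
    exact mul_le_mul (ha l) (hb l) (abs_nonneg _) (by positivity)
  refine (Finset.sum_le_sum this).trans (le_of_eq ?_)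
  rw [Finset.sum_const, Finset.card_univ, Fintype.card_fin, nsmul_eq_mul]
  ring

theorem t_LP (hF : S_FUN) : S_LP := by
  classical
  intro k M C x i hM hC hx
  set X : Fin k → ℤ := cz x with hX
  set G : ℕ := Gam k M with hG
  have hG1 : 1 ≤ G := by rw [hG]; unfold Gam; omega
  set c : ℕ → ℕ := fun j => G ^ j * C with hc
  have hmono : Monotone c := by
    intro a b hab
    exact Nat.mul_le_mul_right _ (Nat.pow_le_pow_right hG1 hab)
  have hcC : ∀ j, C ≤ c j := fun j => Nat.le_mul_of_pos_left _ (Nat.pow_pos hG1)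
  obtain ⟨j, hj, P, hPb, hPl, hPm⟩ := exists_level M X c
  obtain ⟨Δ, u, Z, hΔ0, -, hu, -, hdual, -, -⟩ := hF k M hM P (fun p hp => (hPb p hp).1) hPl
  have hPk : P.card ≤ k := li_card hPl
  set S : Fin k → ℤ := ∑ p ∈ P, (p ⬝ᵥ X) • u p with hS
  set v : Fin k → ℤ := Δ • X - S with hv
  -- `v` is orthogonal to `P`
  have hPv : ∀ q ∈ P, q ⬝ᵥ v = 0 := by
    intro q hq
    rw [hv, dotProduct_sub, dotProduct_smul, hS, dotProduct_sum]
    have : ∀ p ∈ P, q ⬝ᵥ ((p ⬝ᵥ X) • u p) = if p = q then (q ⬝ᵥ X) * Δ else 0 := by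
      intro p hp
      rw [dotProduct_smul, dotProduct_comm q, hdual p hp q hq, smul_eq_mul]
      split_ifs with h
      · rw [h]
      · rw [mul_zero]
    rw [Finset.sum_congr rfl this, Finset.sum_ite_eq' P q, if_pos hq, smul_eq_mul]
    ring
  -- `v` is orthogonal to all vectors of the next level
  have hav : ∀ a : Fin k → ℤ, Bd M X (c (j + 1)) a → a ⬝ᵥ v = 0 := by
    intro a ha
    by_cases haP : a ∈ P
    · exact hPv a haP
    refine dep hPl haP (fun hli => ?_) hPv
    have h1 := hPm _ ⟨insert a P, ?_, hli, rfl⟩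
    · rw [Finset.card_insert_of_notMem haP] at h1
      omega
    · intro p hp
      rcases Finset.mem_insert.mp hp with rfl | hp
      · exact ha
      · exact ⟨(hPb p hp).1, (hPb p hp).2.trans (by exact_mod_cast hmono (Nat.le_succ j))⟩
  -- bound of the correction
  have hSb : ∀ a : Fin k → ℤ, (∀ l, |a l| ≤ (M : ℤ)) → |a ⬝ᵥ S| ≤ (c (j + 1) : ℤ) := by
    intro a ha
    rw [hS, dotProduct_sum]
    refine (Finset.abs_sum_le_sum_abs _ _).trans ?_
    have h1 : ∀ p ∈ P, |a ⬝ᵥ ((p ⬝ᵥ X) • u p)| ≤ (c j : ℤ) * (k * M * M1 k M : ℤ) := by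
      intro p hp
      rw [dotProduct_smul, smul_eq_mul, abs_mul]
      exact mul_le_mul (hPb p hp).2 (abs_dot ha (hu p hp)) (abs_nonneg _) (by positivity)
    refine (Finset.sum_le_sum h1).trans ?_
    rw [Finset.sum_const, nsmul_eq_mul]
    have h2 : (P.card : ℤ) * ((c j : ℤ) * (k * M * M1 k M : ℤ)) ≤
        (k : ℤ) * ((c j : ℤ) * (k * M * M1 k M : ℤ)) :=
      mul_le_mul_of_nonneg_right (by exact_mod_cast hPk) (by positivity)
    refine h2.trans ?_
    have h3 : (c (j + 1) : ℤ) = (1 + k ^ 2 * M * M1 k M) * (c j : ℤ) := by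
      simp only [hc, hG, Gam]
      push_cast
      ring
    rw [h3]
    have h4 : (0 : ℤ) ≤ (c j : ℤ) := by positivity
    nlinarith [h4]
  -- positivity above the level
  have hpos : ∀ a : Fin k → ℤ, (∀ l, |a l| ≤ (M : ℤ)) → (c (j + 1) : ℤ) < a ⬝ᵥ X →
      0 < a ⬝ᵥ v := by
    intro a ha h
    rw [hv, dotProduct_sub, dotProduct_smul, smul_eq_mul]
    have h1 := (abs_le.mp (hSb a ha)).2
    have h2 : a ⬝ᵥ X ≤ Δ * (a ⬝ᵥ X) := by
      have h3 : (0 : ℤ) ≤ a ⬝ᵥ X := by
        have : (0 : ℤ) ≤ (c (j + 1) : ℤ) := by positivity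
        omega
      nlinarith
    omega
  have hcomp : Comp k M C X v := by
    intro a ha
    refine ⟨fun h => hav a ⟨ha, h.trans (by exact_mod_cast hcC (j + 1))⟩, fun h => ?_⟩
    by_cases h1 : a ⬝ᵥ X ≤ (c (j + 1) : ℤ)
    · refine (hav a ⟨ha, ?_⟩).ge
      rw [abs_of_nonneg (by have : (0 : ℤ) ≤ (C : ℤ) := by positivity
                            omega)]
      exact h1
    · exact (hpos a ha (not_le.mp h1)).le
  -- the unit vectors
  have hunit : ∀ l m : Fin k, |(Pi.single l (1 : ℤ) : Fin k → ℤ) m| ≤ (M : ℤ) := by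
    intro l m
    by_cases h : m = l
    · rw [h, Pi.single_eq_same]
      simpa using hM
    · rw [Pi.single_eq_of_ne h]
      simp
  have hXl : ∀ l, X l = (x l : ℤ) := fun l => rfl
  have hvl : ∀ l, 0 ≤ v l := by
    intro l
    have h1 := hav (Pi.single l 1)
    have h2 := hpos (Pi.single l 1) (hunit l)
    rw [single_one_dotProduct, single_one_dotProduct] at h2
    by_cases h : (c (j + 1) : ℤ) < X l
    · exact (h2 h).le
    · have h3 := h1 ⟨hunit l, by
        rw [single_one_dotProduct, hXl, abs_of_nonneg (by positivity)]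
        rw [hXl] at h
        omega⟩
      rw [single_one_dotProduct] at h3
      exact h3.ge
  have hvi : 0 < v i := by
    have h2 := hpos (Pi.single i 1) (hunit i)
    rw [single_one_dotProduct, single_one_dotProduct] at h2
    refine h2 ?_
    rw [hXl]
    have h3 : c (j + 1) ≤ Gam k M ^ (k + 1) * C := hmono (by omega : j + 1 ≤ k + 1)
    exact_mod_cast lt_of_le_of_lt h3 hx
  refine ⟨fun l => (v l).toNat, Int.lt_toNat.mpr (by simpa using hvi), ?_⟩
  have e : cz (fun l => (v l).toNat) = v := by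
    funext l
    exact Int.toNat_of_nonneg (hvl l)
  rw [e]
  exact hcomp

end Pool.Agent.K1H82.JA

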